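import Pool.Agent.R672.DS.Seq
import Pool.Agent.R672.DS.Nec
import Pool.Agent.R672.DS.Hole
import Pool.Agent.R672.DS.Count
import Pool.Agent.R672.DS.One

/-!
# The sequence distortion spectrum of Euclidean space (MP_bf2d93_gt)

For `k ≥ 2` and any index set `I ⊆ ℤ` containing the positive integers (in particular for
`I = ℕ` and `I = ℤ`), a rate function `f` is realizable in `ℝ^k` iff

* `f(N)/N ≤ C f(M)/M` and
* `(N/M)^(1/k + ε) f(M) ≤ C f(N)` for all large `M ≤ N`,

for some `C` and some `ε > 0`. In `ℝ` exactly the linear rates are realizable.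
-/

namespace Pool.Agent.Results.MP_bf2d93_gt.Spectrum

open Pool.Agent.R672.DS

lemma sup_le_euclid {k : ℕ} (x y : EuclideanSpace ℝ (Fin k)) :
    dist (fun i => x i) (fun i => y i) ≤ dist x y := by
  rw [dist_pi_le_iff dist_nonneg]
  intro i
  rw [EuclideanSpace.dist_eq]
  apply Real.le_sqrt_of_sq_le
  exact Finset.single_le_sum (f := fun i => dist (x i) (y i) ^ 2) (fun j _ => sq_nonneg _)
    (Finset.mem_univ i)

lemma euclid_le_sup {k : ℕ} (x y : EuclideanSpace ℝ (Fin k)) :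
    dist x y ≤ √k * dist (fun i => x i) (fun i => y i) := by
  rw [EuclideanSpace.dist_eq]
  have h1 : ∑ i, dist (x i) (y i) ^ 2 ≤ k * dist (fun i => x i) (fun i => y i) ^ 2 := by
    calc ∑ i, dist (x i) (y i) ^ 2
        ≤ ∑ _i : Fin k, dist (fun i => x i) (fun i => y i) ^ 2 := by
          apply Finset.sum_le_sum
          intro i _
          exact pow_le_pow_left₀ dist_nonneg
            (dist_le_pi_dist (fun i => x i) (fun i => y i) i) 2
      _ = _ := by simp
  calc √(∑ i, dist (x i) (y i) ^ 2)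
      ≤ √(k * dist (fun i => x i) (fun i => y i) ^ 2) := Real.sqrt_le_sqrt h1
    _ = √k * dist (fun i => x i) (fun i => y i) := by
        rw [Real.sqrt_mul (Nat.cast_nonneg k), Real.sqrt_sq dist_nonneg]

/-- From a realization in `ℝ^k` to a one-sided sequence in the sup metric. -/
lemma to_dist {k : ℕ} (hk : 1 ≤ k) {f : ℕ → ℝ} (hf : IsRate f) {I : Set ℤ} (hI : Set.Ici 1 ⊆ I)
    (h : Realizable (EuclideanSpace ℝ (Fin k)) I f) :
    ∃ (p : ℕ → Fin k → ℝ) (A B : ℝ) (N₀ : ℕ), Dist k f p A B N₀ := by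
  obtain ⟨p, A, B, N0, hA, hB, hN0, h⟩ := h
  have hk0 : 0 < √(k : ℝ) := Real.sqrt_pos.mpr (by exact_mod_cast hk)
  refine ⟨fun n i => p (n + 1) i, A / √k, B, N0, by positivity, hB, hN0, ?_⟩
  intro m n hmn
  have hn : ((n : ℤ) + 1) ∈ I := hI (by simp)
  have hm : ((m : ℤ) + 1) ∈ I := hI (by simp)
  have h1 : (((n : ℤ) + 1) - ((m : ℤ) + 1)).natAbs = n - m := by omega
  have h2 := h _ hm _ hn (by rw [h1]; omega)
  rw [h1, dist_comm] at h2
  have h3 := sup_le_euclid (p ((m : ℤ) + 1)) (p ((n : ℤ) + 1))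
  have h4 := euclid_le_sup (p ((m : ℤ) + 1)) (p ((n : ℤ) + 1))
  constructor
  · rw [div_mul_eq_mul_div, div_le_iff₀ hk0, mul_comm _ (√(k : ℝ))]
    exact h2.1.trans h4
  · exact h3.trans h2.2

/-- From a two-sided sequence in the sup metric to a realization in `ℝ^k`. -/
lemma of_sup {k : ℕ} (hk : 1 ≤ k) {f : ℕ → ℝ} {I : Set ℤ} (q : ℤ → Fin k → ℝ) (A B : ℝ)
    (N₀ : ℕ) (hA : 0 < A) (hB : 0 < B) (hN₀ : 1 ≤ N₀)
    (h : ∀ z w : ℤ, w < z → N₀ ≤ (z - w).natAbs → A * f (z - w).natAbs ≤ dist (q z) (q w) ∧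
        dist (q z) (q w) ≤ B * f (z - w).natAbs) :
    Realizable (EuclideanSpace ℝ (Fin k)) I f := by
  have hk0 : 0 < √(k : ℝ) := Real.sqrt_pos.mpr (by exact_mod_cast hk)
  have key : ∀ z w : ℤ, N₀ ≤ (z - w).natAbs → A * f (z - w).natAbs ≤ dist (q z) (q w) ∧
        dist (q z) (q w) ≤ B * f (z - w).natAbs := by
    intro z w hzw
    rcases lt_trichotomy w z with hlt | heq | hgt
    · exact h z w hlt hzw
    · subst heq; simp at hzw; omega
    · have h1 : (z - w).natAbs = (w - z).natAbs := by omega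
      rw [h1] at hzw ⊢
      rw [dist_comm]
      exact h w z hgt hzw
  refine ⟨fun n => WithLp.toLp 2 (q n), A, √k * B, N₀, hA, by positivity, hN₀, ?_⟩
  intro m _ n _ hmn
  have h1 := key n m hmn
  have h2 := sup_le_euclid (WithLp.toLp 2 (q n)) (WithLp.toLp 2 (q m))
  have h3 := euclid_le_sup (WithLp.toLp 2 (q n)) (WithLp.toLp 2 (q m))
  constructor
  · exact h1.1.trans h2
  · refine h3.trans ?_
    rw [mul_assoc]
    exact mul_le_mul_of_nonneg_left h1.2 hk0.le

theorem result :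
    (∀ k : ℕ, 2 ≤ k → ∀ f : ℕ → ℝ, IsRate f → ∀ I : Set ℤ, Set.Ici 1 ⊆ I →
      (Realizable (EuclideanSpace ℝ (Fin k)) I f ↔
        ∃ (C ε : ℝ) (N₀ : ℕ), 0 < C ∧ 0 < ε ∧ 1 ≤ N₀ ∧ ∀ M N : ℕ, N₀ ≤ M → M ≤ N →
          f N / N ≤ C * (f M / M) ∧
          ((N : ℝ) / M) ^ (1 / (k : ℝ) + ε) * f M ≤ C * f N)) ∧
    (∀ f : ℕ → ℝ, IsRate f → ∀ I : Set ℤ, Set.Ici 1 ⊆ I →
      (Realizable (EuclideanSpace ℝ (Fin 1)) I f ↔
        ∃ (c C : ℝ) (N₁ : ℕ), 0 < c ∧ ∀ N : ℕ, N₁ ≤ N → c * N ≤ f N ∧ f N ≤ C * N)) := by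
  constructor
  · intro k hk f hf I hI
    constructor
    · intro h
      obtain ⟨p, A, B, N0, hD⟩ := to_dist (by omega) hf hI h
      exact stmNec stmHole stmCount k hk f hf p A B N0 hD
    · intro h
      obtain ⟨d, rfl⟩ : ∃ d, k = d + 1 := ⟨k - 1, by omega⟩
      obtain ⟨q, A, B, hA, hB, hq⟩ := two_sided (by omega : 1 ≤ d) hf h
      exact of_sup (by omega) q A B 1 hA hB le_rfl (fun z w hlt _ => hq z w hlt)
  · intro f hf I hI
    constructor
    · intro h
      obtain ⟨p, A, B, N0, hD⟩ := to_dist le_rfl hf hI h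
      exact stmOne f hf p A B N0 hD
    · rintro ⟨c, C, N1, hc, h⟩
      have hCc : c ≤ C := by
        have h1 := h (max N1 1) (le_max_left _ _)
        have h2 : (0 : ℝ) < (max N1 1 : ℕ) := by
          have : 1 ≤ max N1 1 := le_max_right _ _
          exact_mod_cast this
        have h3 : c * (max N1 1 : ℕ) ≤ C * (max N1 1 : ℕ) := h1.1.trans h1.2
        exact le_of_mul_le_mul_right h3 h2
      have hC : 0 < C := by linarith
      refine of_sup le_rfl (fun z _ => (z : ℝ)) (1 / C) (1 / c) (max N1 1) (by positivity)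
        (by positivity) (le_max_right _ _) ?_
      intro z w hlt hzw
      have hd : dist (fun _ : Fin 1 => (z : ℝ)) (fun _ => (w : ℝ)) = ((z - w).natAbs : ℝ) := by
        have h1 : dist (fun _ : Fin 1 => (z : ℝ)) (fun _ => (w : ℝ)) = |(z : ℝ) - w| := by
          apply le_antisymm
          · rw [dist_pi_le_iff (abs_nonneg _)]
            intro i
            rw [Real.dist_eq]
          · have := dist_le_pi_dist (fun _ : Fin 1 => (z : ℝ)) (fun _ => (w : ℝ)) 0
            rwa [Real.dist_eq] at this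
        rw [h1, Nat.cast_natAbs]
        push_cast
        rfl
      rw [hd]
      have h1 := h (z - w).natAbs ((le_max_left _ _).trans hzw)
      constructor
      · rw [one_div, inv_mul_le_iff₀ hC]; exact h1.2
      · rw [one_div, ← div_eq_inv_mul, le_div_iff₀ hc, mul_comm]; exact h1.1

end Pool.Agent.Results.MP_bf2d93_gt.Spectrum
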